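import Pool.Agent.Q56.FE.OpenDefs

/-!
# Explicit bounds and products
-/

set_option autoImplicit false

universe u v

namespace Pool.Agent.Q56.FR

open Pool.Agent.H914 Pool.Agent.H914.VarClass Pool.Agent.H914.VarClass.Obj
  Pool.Agent.Q56.FD Pool.Agent.Q56.FE

/-- The explicit constant `((2 b!)! + t + 1) (4 (d + 1) b!) ^ (2 ^ b)`. -/
def relBound (b d t : ℕ) : ℕ := (torsBound b + t + 1) * powBound b d

/-- The bound `2 ^ b q ^ (d b)` for the coefficients of the Frobenius polynomials of degree at most
`b` and weight at most `2 d`. -/
def coefBound (q b d : ℕ) : ℕ := 2 ^ b * q ^ (d * b)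

/-- The bound `(2 d + 1) (2 ^ (b + 1) q ^ (d b) + 1) ^ (b + 1) b` for the number of the eigenvalues
of the Frobenius endomorphisms of all varieties over the field with `q` elements with total Betti
number at most `b` and dimension at most `d`. -/
def letterBound (q b d : ℕ) : ℕ := (2 * d + 1) * ((2 * coefBound q b d + 1) ^ (b + 1) * b)

/-- The explicit bound for the number of factors. -/
def classBound (q b d t : ℕ) : ℕ := relBound (letterBound q b d) d t

/-- The product of the variety `Z` with the varieties of the list `l`. -/
noncomputable def prodL {k : Type u} [Field k] {𝒱 : VarClass k} (Z : 𝒱.Obj) :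
    List 𝒱.Obj → 𝒱.Obj
  | [] => Z
  | Y :: l => (prodL Z l).prod Y

end Pool.Agent.Q56.FR
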