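import Pool.Agent.Q56.FR.Rel

/-!
# The finitely many Frobenius polynomials of bounded degree over a given finite field
-/

set_option autoImplicit false

namespace Pool.Agent.Q56.FR

open Polynomial Pool.Agent.Q56.FD

section Poly

variable {p : ℕ} [Fact p.Prime] {q i b d : ℕ} {P R : ℤ[X]}

lemma isFrobPoly_one : IsFrobPoly p q i 1 where
  monic := monic_one
  weil z hz := by
    rw [map_one] at hz
    exact absurd hz one_ne_zero
  slopes r := ⟨0, by simp [slopeMult]⟩

lemma slopeMult_mul (hP : P ≠ 0) (hR : R ≠ 0) (r : ℝ) :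
    slopeMult p q (P * R) r = slopeMult p q P r + slopeMult p q R r := by
  classical
  rw [slopeMult, slopeMult, slopeMult, aroots_mul (mul_ne_zero hP hR), Multiset.filter_add,
    Multiset.card_add]

lemma IsFrobPoly.mul' (hP : IsFrobPoly p q i P) (hR : IsFrobPoly p q i R) :
    IsFrobPoly p q i (P * R) where
  monic := hP.monic.mul hR.monic
  weil z hz := by
    rw [map_mul, mul_eq_zero] at hz
    rcases hz with hz | hz
    · exact hP.weil z hz
    · exact hR.weil z hz
  slopes r := by
    obtain ⟨m, hm⟩ := hP.slopes r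
    obtain ⟨m', hm'⟩ := hR.slopes r
    refine ⟨m + m', ?_⟩
    rw [slopeMult_mul hP.monic.ne_zero hR.monic.ne_zero]
    push_cast
    rw [← hm, ← hm']
    ring

lemma isFrobPoly_prod (s : Finset ℤ[X]) (h : ∀ P ∈ s, IsFrobPoly p q i P) :
    IsFrobPoly p q i (∏ P ∈ s, P) :=
  Finset.prod_induction _ (fun P => IsFrobPoly p q i P) (fun _ _ h h' => IsFrobPoly.mul' h h')
    isFrobPoly_one h

/-- the polynomials of degree at most `b` with coefficients bounded by `H` -/
noncomputable def polys (b H : ℕ) : Finset ℤ[X] :=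
  open Classical in
  (Fintype.piFinset fun _ : Fin (b + 1) => Finset.Icc (-(H : ℤ)) H).image
    fun c => ∑ i : Fin (b + 1), monomial (i : ℕ) (c i)

lemma card_polys_le (b H : ℕ) : (polys b H).card ≤ (2 * H + 1) ^ (b + 1) := by
  classical
  refine Finset.card_image_le.trans ?_
  rw [Fintype.card_piFinset, Finset.prod_const, Finset.card_univ, Fintype.card_fin, Int.card_Icc]
  refine Nat.pow_le_pow_left ?_ _
  omega

lemma mem_polys {H : ℕ} (hdeg : P.natDegree ≤ b) (hc : ∀ i, |P.coeff i| ≤ H) :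
    P ∈ polys b H := by
  classical
  rw [polys, Finset.mem_image]
  refine ⟨fun i => P.coeff i, ?_, ?_⟩
  · rw [Fintype.mem_piFinset]
    intro i
    rw [Finset.mem_Icc]
    exact abs_le.1 (hc i)
  · conv_rhs => rw [P.as_sum_range' (b + 1) (by omega)]
    rw [Finset.sum_range]

/-- the coefficients of a Frobenius polynomial -/
lemma coeff_le (hq : 1 ≤ q) (hP : IsFrobPoly p q i P) (hi : i ≤ 2 * d) (hdeg : P.natDegree ≤ b)
    (n : ℕ) : |P.coeff n| ≤ (coefBound q b d : ℕ) := by
  have hq' : (1 : ℝ) ≤ (q : ℝ) := by exact_mod_cast hq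
  let P' : ℚ[X] := P.map (Int.castRingHom ℚ)
  have hm : P'.Monic := hP.monic.map _
  have hd' : P'.natDegree ≤ b := natDegree_map_le.trans hdeg
  have h1 := coeff_bdd_of_roots_le (B := (q : ℝ) ^ d) (algebraMap ℚ ℂ) hm
    (IsAlgClosed.splits _) hd' (by
      intro z hz
      have h2 : aeval z P = 0 := by
        have h3 := (mem_roots'.1 hz).2
        rw [IsRoot, eval_map, eval₂_map] at h3
        rw [aeval_def, ← h3]
        congr 1
      have h4 := hP.weil z h2
      have h5 : ‖z‖ ^ 2 ≤ ((q : ℝ) ^ d) ^ 2 := by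
        rw [h4, ← pow_mul]
        exact pow_le_pow_right₀ hq' (by omega)
      exact le_of_sq_le_sq h5 (by positivity)) n
  have h2 : ‖(P'.map (algebraMap ℚ ℂ)).coeff n‖ = ((|P.coeff n| : ℤ) : ℝ) := by
    rw [coeff_map, coeff_map]
    rw [eq_intCast, eq_ratCast, Rat.cast_intCast, Complex.norm_intCast, Int.cast_abs]
  rw [h2, max_eq_left (one_le_pow₀ hq')] at h1
  have h3 : ((b.choose (b / 2) : ℕ) : ℝ) ≤ 2 ^ b := by
    exact_mod_cast Nat.choose_le_two_pow b (b / 2)
  have h4 : ((|P.coeff n| : ℤ) : ℝ) ≤ ((coefBound q b d : ℕ) : ℝ) := by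
    refine h1.trans ?_
    rw [coefBound]
    push_cast
    rw [← pow_mul, mul_comm]
    exact mul_le_mul_of_nonneg_right h3 (by positivity)
  exact_mod_cast h4

/-- the product of all Frobenius polynomials of weight `i` and bounded degree -/
noncomputable def univPoly (p : ℕ) [Fact p.Prime] (q b d i : ℕ) : ℤ[X] :=
  open Classical in
  ∏ P ∈ (polys b (coefBound q b d)).filter fun P => IsFrobPoly p q i P ∧ P.natDegree ≤ b, P

lemma univPoly_isFrob (i : ℕ) : IsFrobPoly p q i (univPoly p q b d i) := by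
  classical
  exact isFrobPoly_prod _ fun _ hP => (Finset.mem_filter.1 hP).2.1

lemma natDegree_univPoly (i : ℕ) :
    (univPoly p q b d i).natDegree ≤ (2 * coefBound q b d + 1) ^ (b + 1) * b := by
  classical
  refine (natDegree_prod_le _ _).trans ?_
  refine (Finset.sum_le_card_nsmul _ _ b fun P hP => (Finset.mem_filter.1 hP).2.2).trans ?_
  rw [smul_eq_mul]
  exact Nat.mul_le_mul_right _ ((Finset.card_le_card (Finset.filter_subset _ _)).trans
    (card_polys_le _ _))

lemma sum_natDegree_univ : ∑ i ∈ Finset.range (2 * d + 1), (univPoly p q b d i).natDegree ≤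
    letterBound q b d := by
  refine (Finset.sum_le_card_nsmul _ _ _ fun i _ => natDegree_univPoly i).trans ?_
  rw [Finset.card_range, smul_eq_mul, letterBound]

lemma dvd_univPoly (hq : 1 ≤ q) (hP : IsFrobPoly p q i P) (hi : i ≤ 2 * d)
    (hdeg : P.natDegree ≤ b) : P ∣ univPoly p q b d i := by
  classical
  refine Finset.dvd_prod_of_mem (fun P : ℤ[X] => P) (Finset.mem_filter.2 ⟨?_, hP, hdeg⟩)
  exact mem_polys hdeg fun n => coeff_le hq hP hi hdeg n

end Poly

end Pool.Agent.Q56.FR
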