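import Pool.Agent.Q56.FR.Block
import Pool.Agent.Q56.FE.Main

/-!
# Words of generalised eigenvectors on products of different varieties
-/

set_option autoImplicit false
set_option linter.unusedSectionVars false

open CategoryTheory AlgebraicGeometry
open scoped TensorProduct

universe u v

namespace Pool.Agent.Q56.FR

open Pool.Agent.H914 Pool.Agent.H447 Pool.Agent.H914.VarClass Pool.Agent.H914.VarClass.Obj
  Pool.Agent.H914.WeilCohomology Pool.Agent.H281R3.HT Pool.Agent.W534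
  Pool.Agent.W458.RK Pool.Agent.W458.MF Pool.Agent.W536.RR Pool.Agent.Y133.Half
  Pool.Agent.Q56.FD Pool.Agent.Q56.FE

open Polynomial (aeval)

variable {k : Type u} [Field k] {𝒱 : VarClass k} {ops : CycleOps 𝒱}

variable {W : WeilCohomology.{u, v} ops} {p : ℕ} [Fact p.Prime] {a : ℕ}
  {F : FrobeniusOver W (p ^ a)} {ha : 0 < a} {𝒞 : Set 𝒱.Obj}
  {Q : ℕ → Polynomial ℤ} {M : ℕ} {τ : Qb →+* W.K} {Z V V' : 𝒱.Obj}

/-- the Frobenius operator -/
noncomputable abbrev fr (F : FrobeniusOver W (p ^ a)) (V : 𝒱.Obj) : Module.End W.K (W.H V) :=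
  (W.map (F.Fr V)).toLinearMap

/-- a pulled back generalised eigenvector of the Frobenius endomorphism of a variety of the class -/
structure CLet (F : FrobeniusOver W (p ^ a)) (𝒞 : Set 𝒱.Obj) (Q : ℕ → Polynomial ℤ) (M : ℕ)
    (τ : Qb →+* W.K) (V : 𝒱.Obj) where
  Y : 𝒱.Obj
  hY : Y ∈ 𝒞
  f : V ⟶ Y
  lab : Letter Q M
  x : W.H Y
  hx : x ∈ W.gr Y lab.1.1
  hg : x ∈ (fr F Y).maxGenEigenspace (τ lab.1.2)

namespace CLet

/-- the class -/
noncomputable def val (l : CLet F 𝒞 Q M τ V) : W.H V := W.map l.f l.x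

/-- pull-back of letters -/
noncomputable def pull (g : V' ⟶ V) (l : CLet F 𝒞 Q M τ V) : CLet F 𝒞 Q M τ V' :=
  ⟨l.Y, l.hY, g ≫ l.f, l.lab, l.x, l.hx, l.hg⟩

lemma val_pull (g : V' ⟶ V) (l : CLet F 𝒞 Q M τ V) : (l.pull g).val = W.map g l.val :=
  W.map_comp g l.f l.x

lemma val_mem (l : CLet F 𝒞 Q M τ V) : l.val ∈ W.gr V l.lab.1.1 := W.map_mem _ l.hx

end CLet

lemma gen_pull (f : V ⟶ V') {ν : W.K} {x : W.H V'} (hx : x ∈ (fr F V').maxGenEigenspace ν) :
    W.map f x ∈ (fr F V).maxGenEigenspace ν := by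
  have h1 := gen_map (θ := (W.map f).toLinearMap) (T := fr F V')
    (T' := fr F V) (c := 1) (fun x => by
      rw [one_smul]
      change W.map (F.Fr V) (W.map f x) = W.map f (W.map (F.Fr V') x)
      rw [← W.map_comp, ← W.map_comp, F.nat]) hx
  rwa [one_mul] at h1

/-- the class of a list of letters -/
noncomputable def cword (L : List (CLet F 𝒞 Q M τ V)) : W.H V := (L.map CLet.val).prod

/-- the labels of a list of letters -/
def clabs (L : List (CLet F 𝒞 Q M τ V)) : Multiset (Letter Q M) :=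
  (L : Multiset (CLet F 𝒞 Q M τ V)).map CLet.lab

lemma clabs_nil : clabs ([] : List (CLet F 𝒞 Q M τ V)) = 0 := rfl

lemma clabs_cons (l : CLet F 𝒞 Q M τ V) (L : List (CLet F 𝒞 Q M τ V)) :
    clabs (l :: L) = l.lab ::ₘ clabs L := by
  rw [clabs, ← Multiset.cons_coe, Multiset.map_cons]
  rfl

lemma cword_nil : cword ([] : List (CLet F 𝒞 Q M τ V)) = 1 := rfl

lemma cword_cons (l : CLet F 𝒞 Q M τ V) (L : List (CLet F 𝒞 Q M τ V)) :
    cword (l :: L) = l.val * cword L := by
  rw [cword, List.map_cons, List.prod_cons]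
  rfl

lemma cword_append (L L' : List (CLet F 𝒞 Q M τ V)) :
    cword (L ++ L') = cword L * cword L' := by
  rw [cword, List.map_append, List.prod_append]
  rfl

lemma cword_mem (L : List (CLet F 𝒞 Q M τ V)) : cword L ∈ W.gr V (dg (clabs L)) := by
  induction L with
  | nil => exact W.one_mem V
  | cons l L ih =>
    rw [cword_cons, clabs_cons, dg_cons]
    exact W.mul_mem l.val_mem ih

lemma cword_pull (g : V' ⟶ V) (L : List (CLet F 𝒞 Q M τ V)) :
    cword (L.map (CLet.pull g)) = W.map g (cword L) := by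
  induction L with
  | nil => rw [List.map_nil, cword_nil, cword_nil, map_one]
  | cons l L ih => rw [List.map_cons, cword_cons, cword_cons, map_mul, ih, CLet.val_pull]

lemma clabs_pull (g : V' ⟶ V) (L : List (CLet F 𝒞 Q M τ V)) :
    clabs (L.map (CLet.pull g)) = clabs L := by
  induction L with
  | nil => rfl
  | cons l L ih =>
    rw [List.map_cons, clabs_cons, clabs_cons, ih]
    rfl

/-- permutations -/
lemma cword_perm {L L' : List (CLet F 𝒞 Q M τ V)} (h : L.Perm L') :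
    ∃ c : W.K, cword L = c • cword L' := by
  induction h with
  | nil => exact ⟨1, (one_smul _ _).symm⟩
  | cons l _ ih =>
    obtain ⟨c, hc⟩ := ih
    exact ⟨c, by rw [cword_cons, cword_cons, hc, mul_smul_comm]⟩
  | swap l l' L =>
    refine ⟨(-1) ^ (l'.lab.1.1 * l.lab.1.1), ?_⟩
    rw [cword_cons, cword_cons, cword_cons, cword_cons, ← mul_assoc,
      W.comm l'.val_mem l.val_mem, smul_mul_assoc, mul_assoc]
  | trans _ _ ih ih' =>
    obtain ⟨c, hc⟩ := ih
    obtain ⟨c', hc'⟩ := ih'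
    exact ⟨c * c', by rw [hc, hc', smul_smul]⟩

/-- the eigenvalue of a word -/
lemma cword_gen (L : List (CLet F 𝒞 Q M τ V)) :
    cword L ∈ (fr F V).maxGenEigenspace (τ (pr (clabs L))) := by
  induction L with
  | nil =>
    apply eig_mem_gen
    rw [cword_nil, clabs_nil, pr, Multiset.map_zero, Multiset.prod_zero, τ.map_one, one_smul]
    exact map_one (W.map (F.Fr V))
  | cons l L ih =>
    rw [cword_cons, clabs_cons, pr_cons, map_mul]
    exact gen_bilin (β := LinearMap.mul W.K (W.H V)) (fun x y =>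
      (map_mul (W.map (F.Fr V)) x y).symm) (gen_pull l.f l.hg) ih

/-- words come from products -/
lemma exists_cpull (f : V ⟶ Z) : ∀ L : List (CLet F 𝒞 Q M τ V),
    ∃ (g : V ⟶ prodL Z (L.map CLet.Y)) (f' : prodL Z (L.map CLet.Y) ⟶ Z)
      (L' : List (CLet F 𝒞 Q M τ (prodL Z (L.map CLet.Y)))), f = g ≫ f' ∧
        L = L'.map (CLet.pull g) := by
  intro L
  induction L with
  | nil => exact ⟨f, 𝟙 Z, [], (Category.comp_id f).symm, rfl⟩
  | cons l L ih =>
    obtain ⟨g, f', L', hf, hL⟩ := ih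
    let P := prodL Z (L.map CLet.Y)
    let h : V ⟶ P.prod l.Y := lift g l.f
    refine ⟨h, fst P l.Y ≫ f', ⟨l.Y, l.hY, snd P l.Y, l.lab, l.x, l.hx, l.hg⟩ ::
      L'.map (CLet.pull (fst P l.Y)), ?_, ?_⟩
    · exact hf.trans ((congrArg (· ≫ f') (lift_fst g l.f).symm).trans (Category.assoc _ _ _))
    · change _ = CLet.pull h _ :: (L'.map (CLet.pull (fst P l.Y))).map (CLet.pull h)
      rw [List.map_map]
      congr 1
      · obtain ⟨Y, hY, f, lab, x, hx, hg⟩ := l
        unfold CLet.pull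
        congr 1
        exact (lift_snd g f).symm
      · conv_lhs => rw [hL]
        apply List.map_congr_left
        intro l' _
        obtain ⟨Y', hY', f'', lab, x, hx, hg⟩ := l'
        change (⟨Y', hY', g ≫ f'', lab, x, hx, hg⟩ : CLet F 𝒞 Q M τ V) =
          ⟨Y', hY', h ≫ fst P l.Y ≫ f'', lab, x, hx, hg⟩
        congr 1
        rw [← Category.assoc]
        exact congrArg (· ≫ f'') (lift_fst g l.f).symm

/-- The sum of the slopes of a family completed to a relation by one eigenvalue. -/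
lemma sum_cs_le {e i : ℕ} {P : Polynomial ℤ} {β : Qb} (he : 0 < e)
    (hQ : ∀ i ≤ M, IsFrobPoly p (p ^ e) i (Q i)) (hP : IsFrobPoly p (p ^ e) i P)
    (hβ : aeval β P = 0) {s : Multiset (Letter Q M)} {j : ℕ}
    (h : β * pr s = ((p ^ e : ℕ) : Qb) ^ j) (hd : i + dg s = 2 * j)
    (ι : Qb →+* PadicAlgCl p) : |(s.map fun x => cs (p ^ e) ι x).sum| ≤ i := by
  have h5 : (s.map fun x => cs (p ^ e) ι x).sum =
      2 * (s.map fun x => sl (p ^ e) ι x.1.2).sum - (dg s : ℝ) := by
    clear h hd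
    induction s using Multiset.induction with
    | empty => simp [dg]
    | cons x s ih =>
      rw [Multiset.map_cons, Multiset.sum_cons, ih, Multiset.map_cons, Multiset.sum_cons, dg_cons,
        cs]
      push_cast
      ring
  have h1 := congrArg (fun z => ‖ι z‖) h
  simp only [map_mul, map_pow, norm_mul, norm_pow] at h1
  rw [pr_norm he hQ, norm_q, norm_eq_sl he ι (root_ne_zero hP hβ)] at h1
  have h3 : ((((p ^ e : ℕ) : ℝ))⁻¹) ^ j = ((p ^ e : ℕ) : ℝ) ^ (-(j : ℝ)) := by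
    rw [Real.rpow_neg q_pos.le, Real.rpow_natCast, inv_pow]
  rw [h3, ← Real.rpow_add q_pos] at h1
  have h4 := congrArg (Real.logb ((p ^ e : ℕ) : ℝ)) h1
  rw [Real.logb_rpow q_pos (q_gt he).ne', Real.logb_rpow q_pos (q_gt he).ne'] at h4
  have h6 := sl_nonneg he hP hβ ι
  have h7 := sl_le he hP hβ ι
  have h8 : ((i : ℝ) + (dg s : ℝ)) = 2 * j := by exact_mod_cast hd
  rw [h5, abs_le]
  constructor <;> linarith

/-- The words with one letter in `Z`. -/
def RelWords (F : FrobeniusOver W (p ^ a)) (𝒞 : Set 𝒱.Obj) (Q : ℕ → Polynomial ℤ) (M : ℕ)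
    (τ : Qb →+* W.K) (Z : 𝒱.Obj) (QZ : ℕ → Polynomial ℤ) (V : 𝒱.Obj) : Set (W.H V) :=
  {w | ∃ (f : V ⟶ Z) (i : ℕ) (β : Qb) (z : W.H Z) (L : List (CLet F 𝒞 Q M τ V)),
    i ≤ 2 * Z.dim ∧ aeval β (QZ i) = 0 ∧ z ∈ W.gr Z i ∧ z ∈ (fr F Z).maxGenEigenspace (τ β) ∧
      w = W.map f z * cword L}

/-- The short exact words with one letter in `Z` are algebraic. -/
def SmallAlg (F : FrobeniusOver W (p ^ a)) (𝒞 : Set 𝒱.Obj) (Q : ℕ → Polynomial ℤ) (M : ℕ)
    (τ : Qb →+* W.K) (Z V : 𝒱.Obj) (N : ℕ) : Prop :=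
  ∀ (f : V ⟶ Z) (L : List (CLet F 𝒞 Q M τ V)), L.length < N →
    ∀ (i : ℕ) (β : Qb) (z : W.H Z), z ∈ W.gr Z i → z ∈ (fr F Z).maxGenEigenspace (τ β) →
      (∃ j : ℕ, β * pr (clabs L) = ((p ^ a : ℕ) : Qb) ^ j ∧ i + dg (clabs L) = 2 * j) →
        W.map f z * cword L ∈ algSpan W V

/-- a word which is pulled back from a variety for which the conjecture is known -/
lemma word_of_pull (ha : 0 < a) {V' : 𝒱.Obj} (hT : TC1 F ha V' ≤ algSpan W V') {f : V ⟶ Z}
    {L : List (CLet F 𝒞 Q M τ V)} {g : V ⟶ V'} {f' : V' ⟶ Z}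
    {L' : List (CLet F 𝒞 Q M τ V')} (hf : f = g ≫ f') (hLL : L = L'.map (CLet.pull g))
    {i : ℕ} {β : Qb} {z : W.H Z} (hz : z ∈ W.gr Z i)
    (hzg : z ∈ (fr F Z).maxGenEigenspace (τ β))
    (hex : ∃ j : ℕ, β * pr (clabs L) = ((p ^ a : ℕ) : Qb) ^ j ∧ i + dg (clabs L) = 2 * j) :
    W.map f z * cword L ∈ algSpan W V := by
  obtain ⟨j, hj1, hj2⟩ := hex
  have h3 : clabs L' = clabs L := by
    rw [hLL]
    exact (clabs_pull g L').symm
  have h1 : W.map f' z * cword L' ∈ TC1 F ha V' := by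
    refine TC1.of (j := j) ?_
    rw [genTate_eq]
    constructor
    · have h2 : W.map f' z * cword L' ∈ (fr F V').maxGenEigenspace
          (τ β * τ (pr (clabs L'))) :=
        gen_bilin (β := LinearMap.mul W.K (W.H _)) (fun x y =>
          (map_mul (W.map (F.Fr _)) x y).symm) (gen_pull f' hzg) (cword_gen L')
      rw [← map_mul] at h2
      rw [h3, hj1, map_pow, map_natCast] at h2
      exact h2
    · rw [← hj2, ← h3]
      exact W.mul_mem (W.map_mem _ hz) (cword_mem L')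
  have h2 := algSpan_map g (hT h1)
  rw [map_mul, ← cword_pull, ← W.map_comp, ← hf, ← hLL] at h2
  exact h2

/-- words on products of members of the class -/
lemma smallAlg_prodL (ha : 0 < a) {N : ℕ}
    (hT : ∀ l : List 𝒱.Obj, (∀ Y ∈ l, Y ∈ 𝒞) → l.length < N →
      TC1 F ha (prodL Z l) ≤ algSpan W (prodL Z l)) : SmallAlg F 𝒞 Q M τ Z V N := by
  intro f L hL i β z hz hzg hex
  obtain ⟨g, f', L', hf, hLL⟩ := exists_cpull f L
  refine word_of_pull ha (hT _ ?_ (by rw [List.length_map]; exact hL)) hf hLL hz hzg hex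
  intro Y hY
  obtain ⟨l, _, rfl⟩ := List.mem_map.1 hY
  exact l.hY

section Main

variable {QZ : ℕ → Polynomial ℤ} {b d t : ℕ}

lemma relBound_pos (b d t : ℕ) : 0 < relBound b d t := by
  rw [relBound]
  refine Nat.mul_pos (by omega) (pow_pos ?_ _)
  exact Nat.mul_pos (by omega) b.factorial_pos

lemma exact_lt_rel (b d t : ℕ) : exactBound b d < relBound b d t := by
  rw [exactBound, relBound]
  refine Nat.mul_lt_mul_of_pos_right (by omega) (pow_pos ?_ _)
  exact Nat.mul_pos (by omega) b.factorial_pos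

/-- **Exact words are algebraic.** -/
theorem rel_alg (ha : 0 < a) (hQ : ∀ i ≤ M, IsFrobPoly p (p ^ a) i (Q i))
    (hb : ∑ i ∈ Finset.range (M + 1), (Q i).natDegree ≤ b) (hM : M ≤ 2 * d)
    (hZ : Z.dim ≤ t) (hQZ : ∀ i ≤ 2 * Z.dim, IsFrobPoly p (p ^ a) i (QZ i))
    (hS : SmallAlg F 𝒞 Q M τ Z V (relBound b d t))
    (f : V ⟶ Z) {i : ℕ} (hi : i ≤ 2 * Z.dim) {β : Qb} (hβ : aeval β (QZ i) = 0) {z : W.H Z}
    (hz : z ∈ W.gr Z i) (hzg : z ∈ (fr F Z).maxGenEigenspace (τ β)) :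
    ∀ (n : ℕ) (L : List (CLet F 𝒞 Q M τ V)), L.length ≤ n →
      (∃ j : ℕ, β * pr (clabs L) = ((p ^ a : ℕ) : Qb) ^ j ∧ i + dg (clabs L) = 2 * j) →
        W.map f z * cword L ∈ algSpan W V := by
  classical
  intro n
  induction n with
  | zero =>
    intro L hL hex
    refine hS f L ?_ i β z hz hzg hex
    rw [Nat.le_zero.1 hL]
    exact relBound_pos b d t
  | succ n ih =>
    intro L hL hex
    rcases Nat.lt_or_ge L.length (relBound b d t) with hlt | hge
    · exact hS f L hlt i β z hz hzg hex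
    obtain ⟨j, hj1, hj2⟩ := hex
    obtain ⟨s', hle, hne, hcard, hex'⟩ := exists_exact_block_rel CLet.lab ha hQ hb hM (t := t)
      (L : Multiset (CLet F 𝒞 Q M τ V)) (by rwa [Multiset.coe_card]) (fun ι => by
        refine (sum_cs_le ha hQ (hQZ i hi) hβ hj1 hj2 ι).trans ?_
        exact_mod_cast (show i ≤ 2 * t by omega))
    obtain ⟨u, hu⟩ := Multiset.le_iff_exists_add.1 hle
    have h1 : (s'.toList : Multiset (CLet F 𝒞 Q M τ V)) = s' := Multiset.coe_toList s'
    have h2 : (u.toList : Multiset (CLet F 𝒞 Q M τ V)) = u := Multiset.coe_toList u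
    have hperm : L.Perm (s'.toList ++ u.toList) := by
      rw [← Multiset.coe_eq_coe, ← Multiset.coe_add, h1, h2]
      exact hu
    have hl1 : clabs s'.toList = s'.map CLet.lab := by rw [clabs, h1]
    have hl2 : clabs u.toList = u.map CLet.lab := by rw [clabs, h2]
    have hlL : clabs L = s'.map CLet.lab + u.map CLet.lab := by
      rw [clabs, hu, Multiset.map_add]
    obtain ⟨j', hj1', hj2'⟩ := hex'
    -- the block
    have hblock : cword s'.toList ∈ algSpan W V := by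
      have h3 := hS f s'.toList (by
        rw [Multiset.length_toList]
        exact lt_of_le_of_lt hcard (exact_lt_rel b d t)) 0 1 1 (W.one_mem Z) (by
          apply eig_mem_gen
          rw [τ.map_one, one_smul]
          exact map_one (W.map (F.Fr Z))) ⟨j', by rw [one_mul, hl1]; exact hj1', by
            rw [hl1]; omega⟩
      rwa [map_one, one_mul] at h3
    obtain ⟨c, hc⟩ := cword_perm hperm
    rw [hc, cword_append, mul_smul_comm]
    refine Submodule.smul_mem _ _ ?_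
    rw [← mul_assoc, ← algSpan_comm hblock, mul_assoc]
    refine algSpan_mul hblock (ih _ ?_ ?_)
    · have h3 := hperm.length_eq
      rw [List.length_append, Multiset.length_toList] at h3
      have hpos : 0 < Multiset.card s' := Multiset.card_pos.2 hne
      omega
    · rw [hl2]
      have h3 : dg (clabs L) = dg (s'.map CLet.lab) + dg (u.map CLet.lab) := by
        rw [hlL, dg, Multiset.map_add, Multiset.sum_add]
        rfl
      have h4 : pr (clabs L) = pr (s'.map CLet.lab) * pr (u.map CLet.lab) := by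
        rw [hlL, pr, Multiset.map_add, Multiset.prod_add]
        rfl
      have hq0 : ((p ^ a : ℕ) : Qb) ≠ 0 := by
        exact_mod_cast (pow_pos (Fact.out : p.Prime).pos a).ne'
      -- the complement is a relation
      have hrel : β * pr (u.map CLet.lab) * ((p ^ a : ℕ) : Qb) ^ j' = ((p ^ a : ℕ) : Qb) ^ j := by
        rw [← hj1, h4, hj1']
        ring
      have hjle : j' ≤ j := by
        by_contra hcon
        have hcon' : j < j' := not_le.1 hcon
        omega
      refine ⟨j - j', ?_, by omega⟩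
      apply mul_right_cancel₀ (pow_ne_zero j' hq0)
      rw [hrel, ← pow_add, Nat.sub_add_cancel hjle]

/-- The strong Tate conjecture from the words. -/
theorem TC1_rel (ha : 0 < a) (hQ : ∀ i ≤ M, IsFrobPoly p (p ^ a) i (Q i))
    (hb : ∑ i ∈ Finset.range (M + 1), (Q i).natDegree ≤ b) (hM : M ≤ 2 * d)
    (hZ : Z.dim ≤ t) (hQZ : ∀ i ≤ 2 * Z.dim, IsFrobPoly p (p ^ a) i (QZ i))
    (hS : SmallAlg F 𝒞 Q M τ Z V (relBound b d t))
    (hV : ∀ y : W.H V, y ∈ Submodule.span W.K (RelWords F 𝒞 Q M τ Z QZ V)) :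
    TC1 F ha V ≤ algSpan W V := by
  intro y hy
  refine TC1.ind (q := fun y => y ∈ algSpan W V) ?_ (Submodule.zero_mem _)
    (fun x y hx hy => Submodule.add_mem _ hx hy) hy
  intro j x hx
  rw [genTate_eq] at hx
  have hgen : ∀ v ∈ RelWords F 𝒞 Q M τ Z QZ V, ∃ μ, v ∈ (fr F V).maxGenEigenspace μ := by
    rintro v ⟨f, i, β, z, L, hi, hβ, hz, hzg, rfl⟩
    exact ⟨_, gen_bilin (β := LinearMap.mul W.K (W.H _)) (fun x y =>
      (map_mul (W.map (F.Fr _)) x y).symm) (gen_pull f hzg) (cword_gen L)⟩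
  have h3 := mem_span_gen (T := fr F V) hgen (hV x) hx.1
  refine (Submodule.span_le (p := algSpan W V)).2 ?_ h3
  rintro v ⟨⟨f, i, β, z, L, hi, hβ, hz, hzg, rfl⟩, hvμ⟩
  by_cases hv0 : W.map f z * cword L = 0
  · rw [hv0]
    exact Submodule.zero_mem _
  have h2 : W.map f z * cword L ∈ (fr F V).maxGenEigenspace (τ β * τ (pr (clabs L))) :=
    gen_bilin (β := LinearMap.mul W.K (W.H _)) (fun x y =>
      (map_mul (W.map (F.Fr _)) x y).symm) (gen_pull f hzg) (cword_gen L)
  have h4 := eq_of_mem_gen h2 hvμ hv0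
  have h5 : β * pr (clabs L) = ((p ^ a : ℕ) : Qb) ^ j := by
    apply τ.injective
    rw [map_mul, h4, map_pow, map_natCast]
  refine rel_alg ha hQ hb hM hZ hQZ hS f hi hβ hz hzg L.length L le_rfl ⟨j, h5, ?_⟩
  -- the weights
  let φ : Qb →ₐ[ℚ] ℂ := IsAlgClosed.lift
  have h6 := congrArg (fun z => ‖(φ : Qb →+* ℂ) z‖ ^ 2) h5
  simp only [map_mul, map_pow, norm_mul, norm_pow, mul_pow] at h6
  rw [norm_sq_root (hQZ i hi) hβ (φ : Qb →+* ℂ), pr_norm_sq hQ] at h6
  have h7 : ‖(φ : Qb →+* ℂ) ((p ^ a : ℕ) : Qb)‖ = ((p ^ a : ℕ) : ℝ) := by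
    rw [map_natCast, Complex.norm_natCast]
  rw [h7, ← pow_add, ← pow_mul] at h6
  have h8 := (pow_right_injective₀ (q_pos (p := p) (e := a)) (q_gt ha).ne') h6
  omega

end Main

section Span

variable {QZ : ℕ → Polynomial ℤ}

/-- The letters span the cohomology of the variety `Y`. -/
def LettersSpan (F : FrobeniusOver W (p ^ a)) (Q : ℕ → Polynomial ℤ) (M : ℕ)
    (τ : Qb →+* W.K) (Y : 𝒱.Obj) : Prop :=
  ∀ y : W.H Y, y ∈ Submodule.span W.K {x | ∃ lab : Letter Q M, x ∈ W.gr Y lab.1.1 ∧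
    x ∈ (fr F Y).maxGenEigenspace (τ lab.1.2)}

lemma lettersSpan_self [IsAlgClosed W.K] (ha : 0 < a) (hQc : IsCharpoly (toSystem F ha) Z QZ)
    (hQ0 : ∀ i ≤ 2 * Z.dim, QZ i ≠ 0) : LettersSpan F QZ (2 * Z.dim) τ Z := by
  intro y
  refine gr_induction (W.isInternal Z) (p := fun z => z ∈ Submodule.span W.K
    {x | ∃ lab : Letter QZ (2 * Z.dim), x ∈ W.gr Z lab.1.1 ∧
      x ∈ (fr F Z).maxGenEigenspace (τ lab.1.2)}) ?_
    (fun a b ha hb => Submodule.add_mem _ ha hb) y
  intro i x hx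
  by_cases hi : i ≤ 2 * Z.dim
  · refine Submodule.span_le.2 ?_ (root_of_gen hQc hi hx)
    rintro x ⟨ν, hν, hx, hg⟩
    have hne : (QZ i).map (Int.castRingHom ℚ) ≠ 0 :=
      (Polynomial.map_ne_zero_iff (RingHom.injective_int _)).2 (hQ0 i hi)
    have hν' : aeval ν ((QZ i).map (Int.castRingHom ℚ)) = 0 := by
      rw [← hν, Polynomial.aeval_def, Polynomial.eval₂_map, Polynomial.aeval_def]
      congr 1
      exact Subsingleton.elim _ _
    obtain ⟨γ, hγ, hτ⟩ := Pool.Agent.TH121.KT.exists_root τ hne hν'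
    have hγ' : aeval γ (QZ i) = 0 := by
      rw [← hγ, Polynomial.aeval_def, Polynomial.aeval_def, Polynomial.eval₂_map]
      congr 1
    refine Submodule.subset_span ⟨⟨(i, γ), hi, hγ'⟩, hx, ?_⟩
    change x ∈ (fr F Z).maxGenEigenspace (τ γ)
    rw [hτ]
    rwa [frob_eq'] at hg
  · rw [W.gr_eq_bot Z i (by omega)] at hx
    rw [(Submodule.mem_bot _).1 hx]
    exact Submodule.zero_mem _

/-- the case of `Z` itself -/
lemma rel_span_self (hZ : LettersSpan F QZ (2 * Z.dim) τ Z) (y : W.H Z) :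
    y ∈ Submodule.span W.K (RelWords F 𝒞 Q M τ Z QZ Z) := by
  refine Submodule.span_mono ?_ (hZ y)
  rintro x ⟨lab, hx, hg⟩
  refine ⟨𝟙 Z, lab.1.1, lab.1.2, x, [], lab.2.1, lab.2.2, hx, hg, ?_⟩
  rw [cword_nil, mul_one, W.map_id]

lemma span_mul_mul {A B C : Type*} [Ring A] [Ring B] [Ring C] {K : Type*} [Field K]
    [Algebra K A] [Algebra K B] [Algebra K C] (f : A →ₐ[K] C) (g : B →ₐ[K] C) {S : Set A}
    {S' : Set B} {R : Set C} (h : ∀ x ∈ S, ∀ y ∈ S', f x * g y ∈ Submodule.span K R) {x : A}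
    (hx : x ∈ Submodule.span K S) {y : B} (hy : y ∈ Submodule.span K S') :
    f x * g y ∈ Submodule.span K R := by
  induction hx using Submodule.span_induction with
  | mem v hv =>
    induction hy using Submodule.span_induction with
    | mem u hu => exact h v hv u hu
    | zero => rw [map_zero, mul_zero]; exact Submodule.zero_mem _
    | add x y _ _ hx hy => rw [map_add, mul_add]; exact Submodule.add_mem _ hx hy
    | smul c x _ hx => rw [map_smul, mul_smul_comm]; exact Submodule.smul_mem _ _ hx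
  | zero => rw [map_zero, zero_mul]; exact Submodule.zero_mem _
  | add x y _ _ hx hy => rw [map_add, add_mul]; exact Submodule.add_mem _ hx hy
  | smul c x _ hx => rw [map_smul, smul_mul_assoc]; exact Submodule.smul_mem _ _ hx

lemma kunneth_span {A B : 𝒱.Obj} {R : Submodule W.K (W.H (A.prod B))}
    (h : ∀ (x : W.H A) (y : W.H B), W.map (fst A B) x * W.map (snd A B) y ∈ R)
    (z : W.H (A.prod B)) : z ∈ R := by
  obtain ⟨t, rfl⟩ := (W.kunneth A B).2 z
  induction t using TensorProduct.induction_on with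
  | zero => rw [map_zero]; exact Submodule.zero_mem _
  | add x y hx hy => rw [map_add]; exact Submodule.add_mem _ hx hy
  | tmul x y => exact h x y

/-- multiplication by a letter -/
lemma rel_span_mul {A B : 𝒱.Obj} (hB : B ∈ 𝒞) (hBs : LettersSpan F Q M τ B) {x : W.H A}
    (hx : x ∈ Submodule.span W.K (RelWords F 𝒞 Q M τ Z QZ A)) (y : W.H B) :
    W.map (fst A B) x * W.map (snd A B) y ∈
      Submodule.span W.K (RelWords F 𝒞 Q M τ Z QZ (A.prod B)) := by
  refine span_mul_mul (W.map (fst A B)) (W.map (snd A B)) ?_ hx (hBs y)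
  rintro _ ⟨f, i, β, z, L, hi, hβ, hz, hzg, rfl⟩ y ⟨lab, hy, hyg⟩
  refine Submodule.subset_span ⟨fst A B ≫ f, i, β, z,
    L.map (CLet.pull (fst A B)) ++ [⟨B, hB, snd A B, lab, y, hy, hyg⟩], hi, hβ, hz, hzg, ?_⟩
  rw [cword_append, cword_pull, cword_cons, cword_nil, mul_one, map_mul, W.map_comp, mul_assoc]
  rfl

/-- The cohomology of the products is spanned by words. -/
theorem rel_span_prodL (hZ : LettersSpan F QZ (2 * Z.dim) τ Z)
    (h𝒞 : ∀ Y ∈ 𝒞, LettersSpan F Q M τ Y) : ∀ l : List 𝒱.Obj, (∀ Y ∈ l, Y ∈ 𝒞) →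
      ∀ y : W.H (prodL Z l), y ∈ Submodule.span W.K (RelWords F 𝒞 Q M τ Z QZ (prodL Z l)) := by
  intro l
  induction l with
  | nil => intro _ y; exact rel_span_self hZ y
  | cons Y l ih =>
    intro hl y
    refine kunneth_span (A := prodL Z l) (B := Y) (fun x y => ?_) y
    have hY := hl Y List.mem_cons_self
    exact rel_span_mul hY (h𝒞 Y hY) (ih (fun Y' hY' => hl Y' (List.mem_cons_of_mem Y hY')) x) y

end Span

end Pool.Agent.Q56.FR
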