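import Pool.Agent.Q56.FR.Univ

/-!
# Products of arbitrarily many varieties of bounded complexity over a finite field
-/

set_option autoImplicit false
set_option linter.unusedSectionVars false

open CategoryTheory AlgebraicGeometry

universe u v

namespace Pool.Agent.Q56.FR

open Pool.Agent.H914 Pool.Agent.H447 Pool.Agent.H914.VarClass Pool.Agent.H914.VarClass.Obj
  Pool.Agent.H914.WeilCohomology Pool.Agent.H281R3.HT Pool.Agent.W534
  Pool.Agent.W458.RK Pool.Agent.W458.MF Pool.Agent.W536.RR Pool.Agent.Y133.Half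
  Pool.Agent.Q56.FD Pool.Agent.Q56.FE

open Polynomial (aeval)

variable {k : Type u} [Field k] {𝒱 : VarClass k} {ops : CycleOps 𝒱}
  {W : WeilCohomology.{u, v} ops} {p : ℕ} [Fact p.Prime] {a : ℕ}
  {F : FrobeniusOver W (p ^ a)} {Z Y : 𝒱.Obj} {b d t : ℕ}

lemma lettersSpan_univ [IsAlgClosed W.K] (ha : 0 < a) {τ : Qb →+* W.K}
    (hb : Module.finrank W.K (W.H Y) ≤ b) (hd : Y.dim ≤ d) (hY : HasFrobPolys F Y) :
    LettersSpan F (univPoly p (p ^ a) b d) (2 * d) τ Y := by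
  obtain ⟨Q, hQ, hQc, hQs⟩ := HasFrobPolys.exists_polys ha hY
  intro y
  refine Submodule.span_mono ?_
    (lettersSpan_self (τ := τ) ha hQc (fun i hi => (hQ i hi).monic.ne_zero) y)
  rintro x ⟨lab, hx, hg⟩
  have h1 : (Q lab.1.1).natDegree ≤ b := by
    refine le_trans ?_ (hQs.le.trans hb)
    exact Finset.single_le_sum (f := fun i => (Q i).natDegree) (fun _ _ => Nat.zero_le _)
      (Finset.mem_range.2 (Nat.lt_succ_of_le lab.2.1))
  have h2 : Q lab.1.1 ∣ univPoly p (p ^ a) b d lab.1.1 :=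
    dvd_univPoly (Nat.one_le_pow _ _ (Fact.out : p.Prime).pos) (hQ _ lab.2.1)
      (lab.2.1.trans (by omega)) h1
  have h3 : aeval lab.1.2 (univPoly p (p ^ a) b d lab.1.1) = 0 := by
    obtain ⟨R, hR⟩ := h2
    rw [hR, map_mul, lab.2.2, zero_mul]
  exact ⟨⟨(lab.1.1, lab.1.2), lab.2.1.trans (by omega), h3⟩, hx, hg⟩

/-- **Boundedly many factors decide the strong Tate conjecture for all products.** -/
theorem strong_class [IsAlgClosed W.K] (ha : 0 < a) {𝒞 : Set 𝒱.Obj}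
    (h𝒞 : ∀ Y ∈ 𝒞, Module.finrank W.K (W.H Y) ≤ b ∧ Y.dim ≤ d ∧ HasFrobPolys F Y)
    (ht : Z.dim ≤ t) (hZ : HasFrobPolys F Z)
    (hT : ∀ l : List 𝒱.Obj, (∀ Y ∈ l, Y ∈ 𝒞) → l.length < classBound (p ^ a) b d t →
      StrongTateAll F (prodL Z l)) (l : List 𝒱.Obj) (hl : ∀ Y ∈ l, Y ∈ 𝒞) :
    StrongTateAll F (prodL Z l) := by
  obtain ⟨QZ, hQZ, hQZc, -⟩ := HasFrobPolys.exists_polys ha hZ
  let τ : Qb →+* W.K := (IsAlgClosed.lift : Qb →ₐ[ℚ] W.K).toRingHom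
  refine (strong_iff1 (ha := ha) _).2 ?_
  refine TC1_rel (M := 2 * d) (𝒞 := 𝒞) (τ := τ) (QZ := QZ) (Q := univPoly p (p ^ a) b d)
    (b := letterBound (p ^ a) b d) (d := d) ha (fun i _ => univPoly_isFrob i)
    sum_natDegree_univ le_rfl ht hQZ ?_ ?_
  · exact smallAlg_prodL ha fun l' hl' hlen => (strong_iff1 (ha := ha) _).1 (hT l' hl' hlen)
  · exact rel_span_prodL (lettersSpan_self ha hQZc fun i hi => (hQZ i hi).monic.ne_zero)
      (fun Y hY => lettersSpan_univ ha (h𝒞 Y hY).1 (h𝒞 Y hY).2.1 (h𝒞 Y hY).2.2) l hl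

/-- Semisimplicity on the products. -/
lemma semisimple_prodL {𝒞 : Set 𝒱.Obj} (h𝒞 : ∀ Y ∈ 𝒞, IsSemisimpleOn F Y)
    (hZ : IsSemisimpleOn F Z) : ∀ l : List 𝒱.Obj, (∀ Y ∈ l, Y ∈ 𝒞) →
      IsSemisimpleOn F (prodL Z l) := by
  intro l
  induction l with
  | nil => intro _; exact hZ
  | cons Y l ih =>
    intro hl
    change Module.End.IsSemisimple (W.map (F.Fr ((prodL Z l).prod Y))).toLinearMap
    rw [frob_prod]
    exact semisimple_ext (ih fun Y' hY' => hl Y' (List.mem_cons_of_mem Y hY'))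
      (h𝒞 Y (hl Y List.mem_cons_self))

/-- Semisimplicity on the products with powers. -/
lemma semisimple_prod_pw {X : 𝒱.Obj} (hX : IsSemisimpleOn F X) (hZ : IsSemisimpleOn F Z) (n : ℕ) :
    IsSemisimpleOn F (Z.prod (pw X n)) := by
  change Module.End.IsSemisimple (W.map (F.Fr (Z.prod (pw X n)))).toLinearMap
  rw [frob_prod]
  exact semisimple_ext hZ (semisimple_pw hX n)

/-- **Relative determination.** -/
theorem relative_main [IsAlgClosed W.K] (ha : 0 < a) {X : 𝒱.Obj}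
    (hb : Module.finrank W.K (W.H X) ≤ b) (hd : X.dim ≤ d) (ht : Z.dim ≤ t)
    (hX : HasFrobPolys F X) (hZ : HasFrobPolys F Z) :
    ((∀ j, StrongTate F (Z.prod (pw X (relBound b d t - 1))) j) →
      ∀ n j, StrongTate F (Z.prod (pw X n)) j ∧ FullTate F (Z.prod (pw X n)) j) ∧
    (IsSemisimpleOn F X → IsSemisimpleOn F Z →
      (∀ j, TateOnto F (Z.prod (pw X (relBound b d t - 1))) j) →
        ∀ n j, FullTate F (Z.prod (pw X n)) j) := by
  have h := fun hT => strong_rel (m := relBound b d t - 1) ha hb hd ht hX hZ (by omega) hT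
  refine ⟨fun hT n j => ⟨h hT n j, full_of_strong ha (h hT n) j⟩, fun hs hs' hT n j => ?_⟩
  exact full_of_strong ha
    (h (fun j => (strong_iff_onto (semisimple_prod_pw hs hs' _) j).2 (hT j)) n) j

/-- **Boundedly many factors.** -/
theorem class_main [IsAlgClosed W.K] (ha : 0 < a) {𝒞 : Set 𝒱.Obj}
    (h𝒞 : ∀ Y ∈ 𝒞, Module.finrank W.K (W.H Y) ≤ b ∧ Y.dim ≤ d ∧ HasFrobPolys F Y)
    (ht : Z.dim ≤ t) (hZ : HasFrobPolys F Z) :
    ((∀ l : List 𝒱.Obj, (∀ Y ∈ l, Y ∈ 𝒞) → l.length < classBound (p ^ a) b d t →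
        ∀ j, StrongTate F (prodL Z l) j) →
      ∀ l : List 𝒱.Obj, (∀ Y ∈ l, Y ∈ 𝒞) →
        ∀ j, StrongTate F (prodL Z l) j ∧ FullTate F (prodL Z l) j) ∧
    ((∀ Y ∈ 𝒞, IsSemisimpleOn F Y) → IsSemisimpleOn F Z →
      (∀ l : List 𝒱.Obj, (∀ Y ∈ l, Y ∈ 𝒞) → l.length < classBound (p ^ a) b d t →
        ∀ j, TateOnto F (prodL Z l) j) →
      ∀ l : List 𝒱.Obj, (∀ Y ∈ l, Y ∈ 𝒞) → ∀ j, FullTate F (prodL Z l) j) := by
  have h := fun hT => strong_class (F := F) (Z := Z) ha h𝒞 ht hZ hT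
  refine ⟨fun hT l hl j => ⟨h hT l hl j, full_of_strong ha (h hT l hl) j⟩,
    fun hs hs' hT l hl j => ?_⟩
  exact full_of_strong ha (h (fun l hl hlen j =>
    (strong_iff_onto (semisimple_prodL hs hs' l hl) j).2 (hT l hl hlen j)) l hl) j

end Pool.Agent.Q56.FR
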