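import Pool.Agent.Q56.FE.Tors
import Pool.Agent.Q56.FR.Defs

/-!
# Exact relations inside families of Frobenius eigenvalues with bounded total slopes
-/

set_option autoImplicit false

namespace Pool.Agent.Q56.FR

open Polynomial Pool.Agent.Q56.FD Pool.Agent.Q56.FE

section Split

/-- Splitting an integer into `n` integers of almost equal size. -/
def part (C : ℤ) (n i : ℕ) : ℤ := (C * (i + 1 : ℕ)) / n - (C * (i : ℕ)) / n

lemma sum_part (C : ℤ) {n : ℕ} (hn : 0 < n) : ∑ i : Fin n, part C n i = C := by
  have h1 : ∀ m : ℕ, ∑ i : Fin m, part C n i = (C * (m : ℕ)) / n := by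
    intro m
    induction m with
    | zero => simp
    | succ m ih =>
      rw [Fin.sum_univ_castSucc]
      have h2 : ∑ i : Fin m, part C n ((Fin.castSucc i : Fin (m + 1)) : ℕ) =
          ∑ i : Fin m, part C n i := rfl
      rw [h2, ih, Fin.val_last, part]
      ring
  rw [h1 n]
  exact Int.mul_ediv_cancel _ (by exact_mod_cast hn.ne')

lemma part_le {C D : ℤ} {n : ℕ} (hn : 0 < n) (h : |C| ≤ n * D) (i : ℕ) : |part C n i| ≤ D := by
  have hn' : (0 : ℤ) < n := by exact_mod_cast hn
  have h1 := Int.emod_add_mul_ediv (C * (i + 1 : ℕ)) n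
  have h2 := Int.emod_add_mul_ediv (C * (i : ℕ)) n
  have h3 := Int.emod_nonneg (C * (i + 1 : ℕ)) hn'.ne'
  have h4 := Int.emod_lt_of_pos (C * (i + 1 : ℕ)) hn'
  have h5 := Int.emod_nonneg (C * (i : ℕ)) hn'.ne'
  have h6 := Int.emod_lt_of_pos (C * (i : ℕ)) hn'
  have h7 := abs_le.1 h
  set x := (C * (i + 1 : ℕ)) / n with hx
  set y := (C * (i : ℕ)) / n with hy
  have h8 : (n : ℤ) * (x - y) = C + (C * (i : ℕ)) % n - (C * (i + 1 : ℕ)) % n := by
    have : C * ((i + 1 : ℕ) : ℤ) = C * (i : ℕ) + C := by push_cast; ring
    linarith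
  have h9 : part C n i = x - y := rfl
  rw [h9, abs_le]
  constructor
  · by_contra hcon
    have h10 : x - y ≤ -D - 1 := by linarith [not_le.1 hcon]
    have h11 : (n : ℤ) * (x - y) ≤ n * (-D - 1) := mul_le_mul_of_nonneg_left h10 hn'.le
    nlinarith
  · by_contra hcon
    have h10 : D + 1 ≤ x - y := by linarith [not_le.1 hcon]
    have h11 : (n : ℤ) * (D + 1) ≤ n * (x - y) := mul_le_mul_of_nonneg_left h10 hn'.le
    nlinarith

end Split

section Left

variable {T S : Type*}

/-- the members of a family which lie in the first summand -/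
def lefts (u : Multiset (T ⊕ S)) : Multiset T := u.filterMap Sum.getLeft?

lemma lefts_add (u v : Multiset (T ⊕ S)) : lefts (u + v) = lefts u + lefts v := by
  rw [lefts, lefts, lefts, Multiset.filterMap_add]

lemma lefts_inl (s : Multiset T) : lefts (s.map (Sum.inl : T → T ⊕ S)) = s := by
  rw [lefts, Multiset.filterMap_map]
  exact Multiset.filterMap_some s

lemma lefts_inr (s : Multiset S) : lefts (s.map (Sum.inr : S → T ⊕ S)) = 0 := by
  induction s using Multiset.induction with
  | empty => rfl
  | cons a s ih =>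
    rw [Multiset.map_cons]
    change (Multiset.filterMap Sum.getLeft? _) = 0
    rw [Multiset.filterMap_cons_none _ _ rfl]
    exact ih

lemma lefts_mono {u v : Multiset (T ⊕ S)} (h : u ≤ v) : lefts u ≤ lefts v := by
  obtain ⟨w, rfl⟩ := Multiset.le_iff_exists_add.1 h
  rw [lefts_add]
  exact Multiset.le_add_right _ _

lemma map_lefts {u : Multiset (T ⊕ S)} (h : ∀ x : S, Sum.inr x ∉ u) :
    (lefts u).map Sum.inl = u := by
  induction u using Multiset.induction with
  | empty => rfl
  | cons a u ih =>
    rcases a with a | a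
    · have h1 : lefts (Sum.inl a ::ₘ u) = a ::ₘ lefts u :=
        Multiset.filterMap_cons_some Sum.getLeft? (Sum.inl a) u rfl
      rw [h1, Multiset.map_cons, ih fun x hx => h x (Multiset.mem_cons_of_mem hx)]
    · exact absurd (Multiset.mem_cons_self _ _) (h a)

lemma lefts_join (P : Multiset (Multiset (T ⊕ S))) :
    (P.map lefts).join = lefts P.join := by
  induction P using Multiset.induction with
  | empty => rfl
  | cons u P ih => rw [Multiset.map_cons, Multiset.join_cons, Multiset.join_cons, lefts_add, ih]

end Left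

variable {p : ℕ} [Fact p.Prime] {e : ℕ} {Q : ℕ → ℤ[X]} {M b d : ℕ} {T : Type*}

/-- Many small balanced blocks contain a small exact block. -/
theorem exact_of_many (lab : T → Letter Q M) (he : 0 < e)
    (hQ : ∀ i ≤ M, IsFrobPoly p (p ^ e) i (Q i))
    (hb : ∑ i ∈ Finset.range (M + 1), (Q i).natDegree ≤ b) {B : ℕ}
    (P : Multiset (Multiset T)) (hPu : ∀ u ∈ P, u ≠ 0 ∧ Multiset.card u ≤ B ∧
      Even (dg (u.map lab)) ∧ ∀ ι : Qb →+* PadicAlgCl p,
        ((u.map lab).map fun x => cs (p ^ e) ι x).sum = 0)
    (hc : torsBound b ≤ Multiset.card P) :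
    ∃ s' ≤ P.join, s' ≠ 0 ∧ Multiset.card s' ≤ torsBound b * B ∧
      Exact (p ^ e) (s'.map lab) := by
  classical
  have hq0 : ((p ^ e : ℕ) : Qb) ≠ 0 := by
    exact_mod_cast (pow_pos (Fact.out : p.Prime).pos e).ne'
  have hze : ∀ u ∈ P, ze lab (p ^ e) u ^ torsBound b = 1 := by
    intro u hu
    obtain ⟨j', m, hm, h1, h2⟩ := bal_of_sum_zero he hQ (hPu u hu).2.2.1 (hPu u hu).2.2.2
    have h3 : hd lab u = j' := by
      rw [hd, h2]
      omega
    rw [ze, h3]
    refine pow_torsBound hQ hb hm ?_
    rw [div_pow, div_eq_one_iff_eq (pow_ne_zero _ (pow_ne_zero _ hq0))]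
    exact h1
  -- partial products
  set l := P.toList with hl
  have hlP : (l : Multiset (Multiset T)) = P := Multiset.coe_toList P
  have hlen : l.length = Multiset.card P := by rw [← hlP, Multiset.coe_card]
  have hmem : ∀ u ∈ l, u ∈ P := fun u hu => Multiset.mem_toList.1 hu
  have hpp : ∀ l' : List (Multiset T), (∀ u ∈ l', u ∈ P) →
      ((l'.map fun u => ze lab (p ^ e) u).prod) ^ torsBound b = 1 := by
    intro l'
    induction l' with
    | nil => intro _; simp
    | cons a l' ih =>
      intro hm
      rw [List.map_cons, List.prod_cons, mul_pow, hze a (hm a List.mem_cons_self),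
        ih fun u hu => hm u (List.mem_cons_of_mem a hu), one_mul]
  obtain ⟨i, hi, k, hk, hik, heq⟩ := Finset.exists_ne_map_eq_of_card_lt_of_maps_to
    (s := Finset.range (torsBound b + 1))
    (t := Polynomial.nthRootsFinset (torsBound b) (1 : Qb))
    (f := fun k => ((l.take k).map fun u => ze lab (p ^ e) u).prod) (by
      rw [Finset.card_range]
      refine Nat.lt_succ_of_le ?_
      refine (Multiset.toFinset_card_le _).trans (Polynomial.card_nthRoots _ _)) (by
      intro k _
      rw [Finset.mem_coe, Polynomial.mem_nthRootsFinset (torsBound_pos b)]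
      exact hpp _ fun u hu => hmem u (List.mem_of_mem_take hu))
  have key : ∀ i k : ℕ, i < k → k ≤ torsBound b →
      ((l.take i).map fun u => ze lab (p ^ e) u).prod =
        ((l.take k).map fun u => ze lab (p ^ e) u).prod →
      ∃ s' ≤ P.join, s' ≠ 0 ∧ Multiset.card s' ≤ torsBound b * B ∧
        Exact (p ^ e) (s'.map lab) := by
    intro i k hik hk heq
    have h1 : l.take k = l.take i ++ (l.take k).drop i := by
      have h2 : (l.take k).take i = l.take i := by
        rw [List.take_take, min_eq_left hik.le]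
      rw [← h2, List.take_append_drop]
    set P' : Multiset (Multiset T) := Multiset.ofList ((l.take k).drop i) with hP'
    have hle : P' ≤ P := by
      rw [← hlP]
      exact ((List.drop_sublist _ _).trans (List.take_sublist _ _)).subperm
    have hlen' : Multiset.card P' = k - i := by
      rw [hP', Multiset.coe_card, List.length_drop, List.length_take]
      omega
    have hne : P' ≠ 0 := by
      intro h3
      rw [h3, Multiset.card_zero] at hlen'
      omega
    have hprod : (P'.map fun u => ze lab (p ^ e) u).prod = 1 := by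
      rw [hP', Multiset.map_coe, Multiset.prod_coe]
      rw [h1, List.map_append, List.prod_append] at heq
      have h3 : ((l.take i).map fun u => ze lab (p ^ e) u).prod ≠ 0 := by
        intro h4
        have h5 := hpp (l.take i) fun u hu => hmem u (List.mem_of_mem_take hu)
        rw [h4, zero_pow (torsBound_pos b).ne'] at h5
        exact zero_ne_one h5
      exact (mul_eq_left₀ h3).1 heq.symm
    refine ⟨P'.join, join_mono hle, join_ne_zero hne fun u hu =>
      (hPu u (Multiset.mem_of_le hle hu)).1, ?_, (P'.map (hd lab)).sum, ?_, ?_⟩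
    · refine (card_join_le P' fun u hu => (hPu u (Multiset.mem_of_le hle hu)).2.1).trans ?_
      refine Nat.mul_le_mul_right _ ?_
      omega
    · rw [pr_join lab hq0, hprod, one_mul]
    · exact dg_join lab fun u hu => (hPu u (Multiset.mem_of_le hle hu)).2.2.1
  rw [Finset.mem_range] at hi hk
  rcases lt_or_gt_of_ne hik with h1 | h1
  · exact key i k h1 (by omega) heq
  · exact key k i h1 (by omega) heq.symm

/-- **Long families with bounded total slopes contain small exact relations.** -/
theorem exists_exact_block_rel (lab : T → Letter Q M) (he : 0 < e)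
    (hQ : ∀ i ≤ M, IsFrobPoly p (p ^ e) i (Q i))
    (hb : ∑ i ∈ Finset.range (M + 1), (Q i).natDegree ≤ b) (hM : M ≤ 2 * d) {t : ℕ}
    (s : Multiset T) (hcard : relBound b d t ≤ Multiset.card s)
    (hsum : ∀ ι : Qb →+* PadicAlgCl p,
      |((s.map lab).map fun x => cs (p ^ e) ι x).sum| ≤ 2 * t) :
    ∃ s' ≤ s, s' ≠ 0 ∧ Multiset.card s' ≤ exactBound b d ∧ Exact (p ^ e) (s'.map lab) := by
  classical
  obtain ⟨r, hr, ι, hι⟩ := exists_places he hQ hb
  set D : ℕ := 2 * ((d + 1) * b.factorial) with hDdef
  have hD : 1 ≤ D := by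
    have := Nat.mul_pos d.succ_pos b.factorial_pos
    have h1 : d.succ = d + 1 := rfl
    rw [h1] at this
    omega
  -- the coordinates of the total
  let C : ℕ → ℤ := fun k => if hk : k < r then
    ((s.map lab).map fun x => cI he hQ hb (ι ⟨k, hk⟩) x).sum else 0
  have hC : ∀ k, |C k| ≤ ((t + 1 : ℕ) : ℤ) * (D : ℤ) := by
    intro k
    simp only [C]
    split_ifs with hk
    · have h1 := cI_sum he hQ hb (ι ⟨k, hk⟩) (s.map lab)
      have h2 := hsum (ι ⟨k, hk⟩)
      have h3 : |((((s.map lab).map fun x => cI he hQ hb (ι ⟨k, hk⟩) x).sum : ℤ) : ℝ)| ≤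
          ((t + 1 : ℕ) : ℝ) * (D : ℝ) := by
        rw [h1, abs_mul, Nat.abs_cast, hDdef]
        push_cast
        have h4 : (0 : ℝ) ≤ b.factorial := Nat.cast_nonneg _
        have h5 : (b.factorial : ℝ) * |((s.map lab).map fun x => cs (p ^ e) (ι ⟨k, hk⟩) x).sum| ≤
            b.factorial * (2 * t) := mul_le_mul_of_nonneg_left h2 h4
        have h6 : (0 : ℝ) ≤ t := Nat.cast_nonneg _
        have h7 : (0 : ℝ) ≤ d := Nat.cast_nonneg _
        have h8 : (0 : ℝ) ≤ d * b.factorial := mul_nonneg h7 h4
        have h9 : (0 : ℝ) ≤ t * (d * b.factorial) := mul_nonneg h6 h8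
        nlinarith
      exact_mod_cast h3
    · rw [abs_zero]
      positivity
  let c : T ⊕ Fin (t + 1) → ℕ → ℤ := fun x k => Sum.elim
    (fun x => if hk : k < r then cI he hQ hb (ι ⟨k, hk⟩) (lab x) else 0)
    (fun i : Fin (t + 1) => - part (C k) (t + 1) (i : ℕ)) x
  have hc : ∀ x k, |c x k| ≤ (D : ℤ) := by
    intro x k
    rcases x with x | i
    · change |(if hk : k < r then cI he hQ hb (ι ⟨k, hk⟩) (lab x) else 0)| ≤ _
      split_ifs with hk
      · exact cI_abs he hQ hb hM _ _
      · rw [abs_zero]
        exact Int.natCast_nonneg _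
    · change |- part (C k) (t + 1) i| ≤ _
      rw [abs_neg]
      exact part_le t.succ_pos (hC k) _
  let w : T ⊕ Fin (t + 1) → ℕ := fun x => Sum.elim (fun x => (lab x).1.1)
    (fun i : Fin (t + 1) => if i = 0 then dg (s.map lab) else 0) x
  let S : Multiset (T ⊕ Fin (t + 1)) := s.map Sum.inl +
    (Finset.univ : Finset (Fin (t + 1))).val.map Sum.inr
  have hS0 : S ≠ 0 := by
    intro h
    have h1 := congrArg Multiset.card h
    simp only [S, Multiset.card_add, Multiset.card_map, Multiset.card_zero, Finset.card_val,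
      Finset.card_univ, Fintype.card_fin] at h1
    omega
  have hZS : ZeroSum c r S := by
    intro k hk
    change (S.map fun x => c x k).sum = 0
    rw [Multiset.map_add, Multiset.sum_add, Multiset.map_map, Multiset.map_map]
    have h1 : (s.map ((fun x => c x k) ∘ Sum.inl)).sum = C k := by
      simp only [C, dif_pos hk, Multiset.map_map]
      congr 1
      apply Multiset.map_congr rfl
      intro x _
      change (if hk : k < r then cI he hQ hb (ι ⟨k, hk⟩) (lab x) else 0) = _
      rw [dif_pos hk]
      rfl
    have h2 : ((Finset.univ : Finset (Fin (t + 1))).val.map ((fun x => c x k) ∘ Sum.inr)).sum =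
        ∑ i : Fin (t + 1), - part (C k) (t + 1) i := rfl
    rw [h1, h2, Finset.sum_neg_distrib, sum_part _ t.succ_pos]
    ring
  have hwS : Even (S.map w).sum := by
    rw [Multiset.map_add, Multiset.sum_add, Multiset.map_map, Multiset.map_map]
    have h1 : (s.map (w ∘ Sum.inl)).sum = dg (s.map lab) := by
      rw [dg, Multiset.map_map]
      rfl
    have h2 : ((Finset.univ : Finset (Fin (t + 1))).val.map (w ∘ Sum.inr)).sum =
        ∑ i : Fin (t + 1), (if i = 0 then dg (s.map lab) else 0) := rfl
    rw [h1, h2, Finset.sum_ite_eq' Finset.univ (0 : Fin (t + 1)), if_pos (Finset.mem_univ _)]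
    exact ⟨_, rfl⟩
  set B : ℕ := powBound b d with hB
  have hBle : (2 * D) ^ 2 ^ r ≤ B := by
    rw [hB, powBound, hDdef, show 2 * (2 * ((d + 1) * b.factorial)) = 4 * (d + 1) * b.factorial by
      ring]
    refine Nat.pow_le_pow_right ?_ (Nat.pow_le_pow_right two_pos hr)
    have := Nat.mul_pos d.succ_pos b.factorial_pos
    have h1 : d.succ = d + 1 := rfl
    rw [h1] at this
    nlinarith
  have hBpos : 0 < B := lt_of_lt_of_le (pow_pos (by omega) _) hBle
  obtain ⟨P, hP, hPu⟩ := exists_partition (B := B)
    (R := fun u : Multiset (T ⊕ Fin (t + 1)) => ZeroSum c r u ∧ Even (u.map w).sum)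
    (by
      rintro u u' hle ⟨h1, h2⟩ ⟨h3, h4⟩
      refine ⟨h1.sub hle h3, ?_⟩
      obtain ⟨v, rfl⟩ := Multiset.le_iff_exists_add.1 hle
      rw [add_tsub_cancel_left]
      rw [Multiset.map_add, Multiset.sum_add] at h2
      exact (Nat.even_add.1 h2).1 h4)
    (fun u hu hR => by
      obtain ⟨u', h1, h2, h3, h4, h5⟩ := exists_even_block hD hc w r u hu hR.1 hR.2
      exact ⟨u', h1, h2, h3.trans hBle, h4, h5⟩)
    (Multiset.card S) S le_rfl ⟨hZS, hwS⟩
  -- the blocks without virtual members
  let good : Multiset (T ⊕ Fin (t + 1)) → Prop := fun u => ∀ i : Fin (t + 1), Sum.inr i ∉ u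
  set P0 := P.filter good with hP0
  set P1 := P.filter (fun u => ¬ good u) with hP1
  have hPP : P0 + P1 = P := Multiset.filter_add_not _ _
  have hcardP1 : Multiset.card P1 ≤ t + 1 := by
    have h1 : ∀ R : Multiset (Multiset (T ⊕ Fin (t + 1))), (∀ u ∈ R, ¬ good u) →
        Multiset.card R ≤ ∑ i : Fin (t + 1), R.join.count (Sum.inr i) := by
      intro R
      induction R using Multiset.induction with
      | empty => intro _; simp
      | cons u R ih =>
        intro hR
        rw [Multiset.card_cons, Multiset.join_cons]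
        have h2 := ih fun v hv => hR v (Multiset.mem_cons_of_mem hv)
        have h3 := hR u (Multiset.mem_cons_self u R)
        simp only [good] at h3
        push Not at h3
        obtain ⟨i, hi⟩ := h3
        have h4 : 1 ≤ ∑ i : Fin (t + 1), u.count (Sum.inr i) :=
          (Multiset.one_le_count_iff_mem.2 hi).trans
            (Finset.single_le_sum (f := fun i : Fin (t + 1) => u.count (Sum.inr i))
              (fun _ _ => Nat.zero_le _) (Finset.mem_univ i))
        have h5 : ∑ i : Fin (t + 1), (u + R.join).count (Sum.inr i) =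
            ∑ i : Fin (t + 1), u.count (Sum.inr i) + ∑ i : Fin (t + 1), R.join.count (Sum.inr i) := by
          rw [← Finset.sum_add_distrib]
          exact Finset.sum_congr rfl fun i _ => Multiset.count_add _ _ _
        omega
    have h2 := h1 P1 fun u hu => (Multiset.mem_filter.1 hu).2
    have h3 : P1.join ≤ S := by
      rw [← hP]
      exact join_mono (Multiset.filter_le _ _)
    refine h2.trans ?_
    calc ∑ i : Fin (t + 1), P1.join.count (Sum.inr i) ≤ ∑ i : Fin (t + 1), 1 := by
          refine Finset.sum_le_sum fun i _ => (Multiset.count_le_of_le _ h3).trans ?_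
          rw [Multiset.count_add, Multiset.count_map_eq_count' _ _ Sum.inr_injective,
            Multiset.count_eq_zero_of_notMem (by
              intro h4
              obtain ⟨x, _, hx⟩ := Multiset.mem_map.1 h4
              exact absurd hx (by simp)), zero_add]
          exact Multiset.nodup_iff_count_le_one.1 Finset.univ.nodup i
      _ = t + 1 := by simp
  have hcardS : Multiset.card S = Multiset.card s + (t + 1) := by
    simp only [S, Multiset.card_add, Multiset.card_map, Finset.card_val, Finset.card_univ,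
      Fintype.card_fin]
  have hmany : torsBound b ≤ Multiset.card P0 := by
    have h1 : Multiset.card S ≤ Multiset.card P * B := by
      rw [← hP]
      exact card_join_le P fun u hu => (hPu u hu).2.1
    rw [hcardS, ← hPP, Multiset.card_add, add_mul] at h1
    have h2 : Multiset.card P1 * B ≤ (t + 1) * B := Nat.mul_le_mul_right _ hcardP1
    have h3 : relBound b d t = torsBound b * B + (t + 1) * B := by
      rw [relBound, ← hB]
      ring
    have h4 : torsBound b * B ≤ Multiset.card P0 * B := by omega
    exact Nat.le_of_mul_le_mul_right h4 hBpos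
  -- the corresponding blocks
  have hgood : ∀ u ∈ P0, ((lefts u).map Sum.inl : Multiset (T ⊕ Fin (t + 1))) = u := fun u hu =>
    map_lefts (Multiset.mem_filter.1 hu).2
  obtain ⟨s', hs', hne, hcard', hex⟩ := exact_of_many lab he hQ hb (B := B) (P0.map lefts) (by
    intro v hv
    obtain ⟨u, hu, rfl⟩ := Multiset.mem_map.1 hv
    have h0 := hgood u hu
    obtain ⟨h1, h2, h3, h4⟩ := hPu u (Multiset.mem_of_le (Multiset.filter_le _ _) hu)
    refine ⟨?_, ?_, ?_, ?_⟩
    · intro h5
      rw [h5, Multiset.map_zero] at h0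
      exact h1 h0.symm
    · rw [← h0, Multiset.card_map] at h2
      exact h2
    · rw [← h0, Multiset.map_map] at h4
      rw [dg, Multiset.map_map]
      exact h4
    · intro ι'
      rw [← cI_sum_zero_iff he hQ hb]
      refine hι ((lefts u).map lab) (fun k => ?_) ι'
      have h5 := h3 k.1 k.2
      rw [← h0, Multiset.map_map] at h5
      rw [Multiset.map_map, ← h5]
      congr 1
      apply Multiset.map_congr rfl
      intro x _
      change _ = (if hk : k.1 < r then cI he hQ hb (ι ⟨k.1, hk⟩) (lab x) else 0)
      rw [dif_pos k.2]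
      rfl) (by rw [Multiset.card_map]; exact hmany)
  refine ⟨s', hs'.trans ?_, hne, hcard', hex⟩
  rw [lefts_join]
  have h1 : P0.join ≤ S := by
    rw [← hP]
    exact join_mono (Multiset.filter_le _ _)
  refine (lefts_mono h1).trans ?_
  rw [lefts_add, lefts_inl, lefts_inr, add_zero]

end Pool.Agent.Q56.FR
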