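import Pool.Agent.Q56.FR.Word
import Pool.Agent.Q56.FE.OpenDefs

/-!
# Products of a fixed variety with the powers of another variety
-/

set_option autoImplicit false
set_option linter.unusedSectionVars false

open CategoryTheory AlgebraicGeometry
open scoped TensorProduct

universe u v

namespace Pool.Agent.Q56.FR

open Pool.Agent.H914 Pool.Agent.H447 Pool.Agent.H914.VarClass Pool.Agent.H914.VarClass.Obj
  Pool.Agent.H914.WeilCohomology Pool.Agent.H281R3.HT Pool.Agent.W534
  Pool.Agent.W458.RK Pool.Agent.W458.MF Pool.Agent.W536.RR Pool.Agent.Y133.Half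
  Pool.Agent.Q56.FD Pool.Agent.Q56.FE

open Polynomial (aeval)

variable {k : Type u} [Field k] {𝒱 : VarClass k} {ops : CycleOps 𝒱}
  {W : WeilCohomology.{u, v} ops} {p : ℕ} [Fact p.Prime] {a : ℕ}
  {F : FrobeniusOver W (p ^ a)} {ha : 0 < a} {X : 𝒱.Obj}
  {Q QZ : ℕ → Polynomial ℤ} {M : ℕ} {τ : Qb →+* W.K} {Z V V' : 𝒱.Obj}

/-- words in the letters of `X` come from the powers of `X` -/
lemma exists_cpull_pw (g0 : V ⟶ X) : ∀ (m : ℕ) (L : List (CLet F {X} Q M τ V)),
    L.length ≤ m + 1 → ∃ (g : V ⟶ pw X m) (L' : List (CLet F {X} Q M τ (pw X m))),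
      L = L'.map (CLet.pull g) := by
  intro m
  induction m with
  | zero =>
    intro L hL
    rcases L with _ | ⟨l, L⟩
    · exact ⟨g0, [], rfl⟩
    · obtain rfl : L = [] := List.length_eq_zero_iff.1 (by rw [List.length_cons] at hL; omega)
      obtain ⟨Y, hY, f, lab, x, hx, hg⟩ := l
      have hYX : Y = X := hY
      subst hYX
      refine ⟨f, [⟨Y, rfl, 𝟙 Y, lab, x, hx, hg⟩], ?_⟩
      change [(⟨Y, rfl, f, lab, x, hx, hg⟩ : CLet F {Y} Q M τ V)] =
        [⟨Y, rfl, f ≫ 𝟙 Y, lab, x, hx, hg⟩]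
      rw [Category.comp_id]
  | succ m ih =>
    intro L hL
    rcases L with _ | ⟨l, L⟩
    · obtain ⟨g, -, -⟩ := ih [] (by simp)
      let h : V ⟶ (pw X m).prod X := lift g g0
      exact ⟨h, [], rfl⟩
    · rw [List.length_cons] at hL
      obtain ⟨g, L', hL'⟩ := ih L (by omega)
      obtain ⟨Y, hY, f, lab, x, hx, hg⟩ := l
      have hYX : Y = X := hY
      subst hYX
      let h : V ⟶ (pw Y m).prod Y := lift g f
      refine ⟨h, ⟨Y, rfl, snd (pw Y m) Y, lab, x, hx, hg⟩ ::
        L'.map (CLet.pull (fst (pw Y m) Y)), ?_⟩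
      rw [List.map_cons, List.map_map]
      congr 1
      · unfold CLet.pull
        congr 1
        exact (lift_snd g f).symm
      · rw [hL']
        apply List.map_congr_left
        intro l' _
        obtain ⟨Y', hY', f'', lab, x, hx, hg⟩ := l'
        change (⟨Y', hY', g ≫ f'', lab, x, hx, hg⟩ : CLet F {Y} Q M τ V) =
          ⟨Y', hY', h ≫ fst (pw Y m) Y ≫ f'', lab, x, hx, hg⟩
        congr 1
        rw [← Category.assoc]
        exact congrArg (· ≫ f'') (lift_fst g f).symm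

/-- short words -/
lemma smallAlg_pw (ha : 0 < a) {N m : ℕ} (hm : N ≤ m + 2) (g0 : V ⟶ X)
    (hT : TC1 F ha (Z.prod (pw X m)) ≤ algSpan W (Z.prod (pw X m))) :
    SmallAlg F {X} Q M τ Z V N := by
  intro f L hL i β z hz hzg hex
  obtain ⟨g, L', hL'⟩ := exists_cpull_pw g0 m L (by omega)
  let h : V ⟶ Z.prod (pw X m) := lift f g
  refine word_of_pull ha hT (g := h) (f' := fst Z (pw X m))
    (L' := L'.map (CLet.pull (snd Z (pw X m)))) (lift_fst f g).symm ?_ hz hzg hex
  rw [hL', List.map_map]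
  apply List.map_congr_left
  intro l' _
  obtain ⟨Y', hY', f'', lab, x, hx, hg⟩ := l'
  change (⟨Y', hY', g ≫ f'', lab, x, hx, hg⟩ : CLet F {X} Q M τ V) =
    ⟨Y', hY', h ≫ snd Z (pw X m) ≫ f'', lab, x, hx, hg⟩
  congr 1
  rw [← Category.assoc]
  exact congrArg (· ≫ f'') (lift_snd f g).symm

/-- The cohomology of the powers is spanned by words. -/
lemma span_pw (hX : LettersSpan F Q M τ X) : ∀ (n : ℕ) (y : W.H (pw X n)),
    y ∈ Submodule.span W.K (Set.range fun L : List (CLet F {X} Q M τ (pw X n)) => cword L) := by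
  intro n
  induction n with
  | zero =>
    intro y
    refine Submodule.span_mono ?_ (hX y)
    rintro x ⟨lab, hx, hg⟩
    refine ⟨[⟨X, rfl, 𝟙 X, lab, x, hx, hg⟩], ?_⟩
    change cword _ = x
    rw [cword_cons, cword_nil, mul_one]
    exact W.map_id X x
  | succ n ih =>
    intro z
    refine kunneth_span (A := pw X n) (B := X) (fun x y => ?_) z
    refine span_mul_mul (W.map (fst (pw X n) X)) (W.map (snd (pw X n) X)) ?_ (ih x) (hX y)
    rintro _ ⟨L, rfl⟩ y ⟨lab, hy, hyg⟩
    refine Submodule.subset_span ⟨L.map (CLet.pull (fst (pw X n) X)) ++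
      [⟨X, rfl, snd (pw X n) X, lab, y, hy, hyg⟩], ?_⟩
    have h1 : cword (L.map (CLet.pull (fst (pw X n) X)) ++
        [(⟨X, rfl, snd (pw X n) X, lab, y, hy, hyg⟩ : CLet F {X} Q M τ ((pw X n).prod X))]) =
        W.map (fst (pw X n) X) (cword L) * W.map (snd (pw X n) X) y := by
      rw [cword_append, cword_pull, cword_cons, cword_nil, mul_one]
      rfl
    exact h1

/-- The cohomology of the products is spanned by words. -/
lemma rel_span_pw (hZ : LettersSpan F QZ (2 * Z.dim) τ Z) (hX : LettersSpan F Q M τ X) (n : ℕ)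
    (y : W.H (Z.prod (pw X n))) :
    y ∈ Submodule.span W.K (RelWords F {X} Q M τ Z QZ (Z.prod (pw X n))) := by
  refine kunneth_span (A := Z) (B := pw X n) (fun x y => ?_) y
  refine span_mul_mul (W.map (fst Z (pw X n))) (W.map (snd Z (pw X n))) ?_ (hZ x) (span_pw hX n y)
  rintro x ⟨lab, hx, hg⟩ _ ⟨L, rfl⟩
  refine Submodule.subset_span ⟨fst Z (pw X n), lab.1.1, lab.1.2, x,
    L.map (CLet.pull (snd Z (pw X n))), lab.2.1, lab.2.2, hx, hg, ?_⟩
  rw [cword_pull]

/-- the polynomials of a variety -/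
lemma HasFrobPolys.exists_polys (ha : 0 < a) (hX : HasFrobPolys F X) : ∃ Q : ℕ → Polynomial ℤ,
    (∀ i ≤ 2 * X.dim, IsFrobPoly p (p ^ a) i (Q i)) ∧ IsCharpoly (toSystem F ha) X Q ∧
      ∑ i ∈ Finset.range (2 * X.dim + 1), (Q i).natDegree = Module.finrank W.K (W.H X) := by
  classical
  let Q : ℕ → Polynomial ℤ := fun i => if h : i ≤ 2 * X.dim then (hX i h).choose else 1
  have hQ : ∀ i ≤ 2 * X.dim, IsFrobPoly p (p ^ a) i (Q i) := by
    intro i hi
    simp only [Q, dif_pos hi]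
    exact (hX i hi).choose_spec.1
  have hQc : IsCharpoly (toSystem F ha) X Q := by
    intro i hi
    simp only [Q, dif_pos hi]
    exact (hX i hi).choose_spec.2
  exact ⟨Q, hQ, hQc, sum_natDegree hQc fun i hi => (hQ i hi).monic⟩

variable {b d t : ℕ}

/-- **The strong Tate conjecture for one product decides it for the products with all powers.** -/
theorem strong_rel [IsAlgClosed W.K] (ha : 0 < a) (hb : Module.finrank W.K (W.H X) ≤ b)
    (hd : X.dim ≤ d) (ht : Z.dim ≤ t) (hX : HasFrobPolys F X) (hZ : HasFrobPolys F Z) {m : ℕ}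
    (hm : relBound b d t ≤ m + 2) (hT : StrongTateAll F (Z.prod (pw X m))) (n : ℕ) :
    StrongTateAll F (Z.prod (pw X n)) := by
  obtain ⟨Q, hQ, hQc, hQs⟩ := HasFrobPolys.exists_polys ha hX
  obtain ⟨QZ, hQZ, hQZc, -⟩ := HasFrobPolys.exists_polys ha hZ
  let τ : Qb →+* W.K := (IsAlgClosed.lift : Qb →ₐ[ℚ] W.K).toRingHom
  have hT' := (strong_iff1 (ha := ha) _).1 hT
  refine (strong_iff1 (ha := ha) _).2 ?_
  refine TC1_rel (M := 2 * X.dim) (𝒞 := {X}) (τ := τ) (QZ := QZ) (b := b) (d := d) ha hQ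
    (by omega) (by omega) ht hQZ ?_ ?_
  · exact smallAlg_pw ha hm (snd Z (pw X n) ≫ (pw_map X n).some) hT'
  · exact rel_span_pw (lettersSpan_self ha hQZc fun i hi => (hQZ i hi).monic.ne_zero)
      (lettersSpan_self ha hQc fun i hi => (hQ i hi).monic.ne_zero) n

end Pool.Agent.Q56.FR
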